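import Pool.Agent.N963.GN.Stm3
import Pool.Agent.N186.GN.H1
import Pool.Agent.N400.GN.H2

set_option autoImplicit false

/-!
# GN/C1: Hadamard factorisation with a growth exponent less than two (helper702)
-/

namespace Pool.Agent.N702.GN

open Complex Filter Topology MeasureTheory Polynomial Metric
open scoped ComplexConjugate
open Pool.Agent.N963.GN Pool.Agent.H24R2.JP Pool.Agent.Y275.GL

/-- growth with exponent `ρ` -/
def GrE (e : ℝ) (f : ℂ → ℂ) : Prop := ∃ C : ℝ, 0 ≤ C ∧ ∀ z : ℂ, ‖f z‖ ≤ Real.exp (C * (1 + ‖z‖) ^ e)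

theorem hadE_main {e : ℝ} (he : 0 ≤ e) {f : ℂ → ℂ} (hf : Differentiable ℂ f) (h0 : f 0 ≠ 0)
    (hsym : ∀ x, f ((starRingEnd ℂ) x) = (starRingEnd ℂ) (f x)) {K : ℝ} (hK : 0 ≤ K)
    (hb : ∀ w, ‖f w‖ ≤ Real.exp (K * (1 + ‖w‖) ^ e)) (N : ℕ) :
    ∃ (Q : ℂ[X]) (L : ℂ → ℂ), (∀ w, Q.IsRoot w → f w = 0 ∨ w.im = 0) ∧
      ∀ w : ℂ, ‖w‖ < ((N : ℝ) + 1) / 2 → f w = Q.eval w * cexp (L w) ∧
        ‖L w‖ ≤ 16 * (K * (1 + 2 * ((N : ℝ) + 1)) ^ e + |Real.log ‖f 0‖|) *
          (‖w‖ / ((N : ℝ) + 1)) ^ 2 + 1 / ((N : ℝ) + 1) := by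
  have hρ : 0 < (N : ℝ) + 1 := by positivity
  obtain ⟨n, hn⟩ := exists_nat_ge
    (∑ᶠ u, (MeromorphicOn.divisor f (closedBall 0 ((N : ℝ) + 1)) u : ℝ) * 1)
  obtain ⟨P, G, hG, hG0, hGb, hFG, hnz⟩ := had_split (M := K * (1 + 2 * ((N : ℝ) + 1)) ^
    e) hρ n f hf h0 hsym (fun w hw => by
      refine (hb w).trans (Real.exp_le_exp.2 (mul_le_mul_of_nonneg_left ?_ hK))
      have hw' : ‖w‖ ≤ 2 * ((N : ℝ) + 1) := by simpa using hw
      exact Real.rpow_le_rpow (by positivity) (by linarith) he) hn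
  obtain ⟨hA, E, hE⟩ := base1 hG hρ (fun u hu => hnz u (ball_subset_closedBall hu))
    (fun w hw => hGb w (ball_subset_closedBall (ball_subset_ball (by linarith) hw)))
  -- symmetry of `G`
  have hP0 : P ≠ 0 := by
    rintro rfl
    have := hFG 0
    rw [map_zero, zero_mul] at this
    exact h0 this
  have hGs : ∀ x, G ((starRingEnd ℂ) x) = (starRingEnd ℂ) (G x) := by
    refine had_symm (q := fun w => aeval w P) hG.continuous hFG hsym
      (fun x => Polynomial.aeval_conj P x) ?_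
    exact Pool.Agent.N186.GN.poly_dense hP0
  have hG00 : (starRingEnd ℂ) (G 0) = G 0 := by
    rw [← hGs, map_zero]
  have hG0' : (starRingEnd ℂ) (deriv G 0) = deriv G 0 := by
    have h1 := (hG 0).hasDerivAt.conj_conj
    have h2 : ((starRingEnd ℂ) ∘ G ∘ (starRingEnd ℂ)) = G := by
      funext x
      simp only [Function.comp_apply]
      rw [hGs, Complex.conj_conj]
    rw [h2, map_zero] at h1
    exact h1.deriv.symm
  obtain ⟨b, hbb⟩ : ∃ b : ℝ, (b : ℂ) = deriv G 0 / G 0 := by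
    refine ⟨(deriv G 0 / G 0).re, ?_⟩
    apply Complex.conj_eq_iff_re.1
    rw [map_div₀, hG0', hG00]
  -- the number of factors
  obtain ⟨m, hm⟩ : ∃ m : ℕ, |b| * ((N : ℝ) + 1) + (|b| * ((N : ℝ) + 1)) ^ 2 * ((N : ℝ) + 1) + 1 ≤ m :=
    exists_nat_ge _
  have hB0 : 0 ≤ |b| * ((N : ℝ) + 1) := by positivity
  have hB1 : 0 ≤ (|b| * ((N : ℝ) + 1)) ^ 2 * ((N : ℝ) + 1) := by positivity
  have hm0 : (0 : ℝ) < m := by linarith
  have hmn : 0 < m := by exact_mod_cast hm0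
  have hδ : ∀ w : ℂ, ‖w‖ < ((N : ℝ) + 1) / 2 → ∃ δ : ℂ,
      (1 + ((b : ℂ) * w) / m) ^ m = cexp ((b : ℂ) * w + δ) ∧ ‖δ‖ ≤ 1 / ((N : ℝ) + 1) := by
    intro w hw
    have h1 : ‖(b : ℂ) * w‖ ≤ |b| * ((N : ℝ) + 1) / 2 := by
      rw [norm_mul, Complex.norm_real, Real.norm_eq_abs]
      calc |b| * ‖w‖ ≤ |b| * (((N : ℝ) + 1) / 2) := mul_le_mul_of_nonneg_left hw.le (abs_nonneg _)
        _ = |b| * ((N : ℝ) + 1) / 2 := by ring
    obtain ⟨δ, h2, h3⟩ := pow_exp (z := (b : ℂ) * w) hmn (by linarith)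
    refine ⟨δ, h2, h3.trans ?_⟩
    rw [div_le_div_iff₀ hm0 hρ]
    have h4 : ‖(b : ℂ) * w‖ ^ 2 ≤ (|b| * ((N : ℝ) + 1)) ^ 2 :=
      pow_le_pow_left₀ (norm_nonneg _) (by linarith) 2
    have h5 := mul_le_mul_of_nonneg_right h4 hρ.le
    linarith
  choose! δ hδ1 hδ2 using hδ
  refine ⟨Polynomial.C (f 0) * (P.map (algebraMap ℝ ℂ)) *
    (1 + Polynomial.C ((b : ℂ) / m) * Polynomial.X) ^ m, fun w => E w - δ w, ?_, ?_⟩
  · intro w hw
    rw [Polynomial.IsRoot.def, eval_mul, eval_mul, eval_C, Polynomial.eval_map_algebraMap, eval_pow, eval_add,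
      eval_one, eval_mul, eval_C, eval_X] at hw
    rcases mul_eq_zero.1 hw with h | h
    · rcases mul_eq_zero.1 h with h | h
      · exact absurd h h0
      · left
        rw [hFG, h, zero_mul]
    · right
      have h1 := pow_eq_zero_iff hmn.ne' |>.1 h
      have h2 : (((b / m : ℝ)) : ℂ) * w = -1 := by
        push_cast
        linear_combination h1
      have h3 := congrArg Complex.re h2
      have h4 := congrArg Complex.im h2
      rw [Complex.re_ofReal_mul, neg_re, one_re] at h3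
      rw [Complex.im_ofReal_mul, neg_im, one_im, neg_zero] at h4
      rcases mul_eq_zero.1 h4 with h5 | h5
      · rw [h5, zero_mul] at h3
        norm_num at h3
      · exact h5
  · intro w hw
    obtain ⟨h1, h2⟩ := hE w hw
    constructor
    · rw [eval_mul, eval_mul, eval_C, Polynomial.eval_map_algebraMap, eval_pow, eval_add,
        eval_one, eval_mul, eval_C, eval_X, hFG w, h1, ← hbb, hG0,
        show (b : ℂ) / m * w = ((b : ℂ) * w) / m by ring, hδ1 w hw,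
        show (b : ℂ) * w + E w = ((b : ℂ) * w + δ w) + (E w - δ w) by ring, Complex.exp_add]
      ring
    · refine (norm_sub_le _ _).trans (add_le_add ?_ (hδ2 w hw))
      refine h2.trans ?_
      apply mul_le_mul_of_nonneg_right _ (sq_nonneg _)
      rw [hG0]
      have := neg_abs_le (Real.log ‖f 0‖)
      linarith

theorem limE {e K r c : ℝ} (he : 0 ≤ e) (he2 : e < 2) (hK : 0 ≤ K) (hr : 0 < r) (hc : 0 ≤ c) {δ : ℝ}
    (hδ : 0 < δ) :
    ∀ᶠ N : ℕ in atTop, r < ((N : ℝ) + 1) / 2 ∧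
      16 * (K * (1 + 2 * ((N : ℝ) + 1)) ^ e + c) * (r / ((N : ℝ) + 1)) ^ 2 +
        1 / ((N : ℝ) + 1) < δ := by
  have t1 : Tendsto (fun N : ℕ => (N : ℝ) + 1) atTop atTop :=
    tendsto_atTop_add_const_right _ _ tendsto_natCast_atTop_atTop
  have t2 : Tendsto (fun N : ℕ => 144 * K * r ^ 2 * ((N : ℝ) + 1) ^ (-(2 - e) : ℝ) +
      16 * c * r ^ 2 * ((N : ℝ) + 1)⁻¹ + ((N : ℝ) + 1)⁻¹) atTop (𝓝 0) := by
    have a1 := (tendsto_rpow_neg_atTop (y := 2 - e) (by linarith)).comp t1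
    have a2 := tendsto_inv_atTop_zero.comp t1
    have := ((a1.const_mul (144 * K * r ^ 2)).add (a2.const_mul (16 * c * r ^ 2))).add a2
    simpa only [Function.comp_def, mul_zero, add_zero] using this
  filter_upwards [t1.eventually_gt_atTop (2 * r), t2.eventually (gt_mem_nhds hδ)] with N h2 h3
  refine ⟨by linarith, lt_of_le_of_lt ?_ h3⟩
  set m : ℝ := (N : ℝ) + 1 with hm
  have hm1 : 1 ≤ m := by rw [hm]; linarith [Nat.cast_nonneg (α := ℝ) N]
  have hm0 : 0 < m := by linarith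
  have e1 : (1 + 2 * m) ^ e ≤ 9 * m ^ e := by
    calc (1 + 2 * m) ^ e ≤ (3 * m) ^ e :=
          Real.rpow_le_rpow (by linarith) (by linarith) he
      _ = 3 ^ e * m ^ e := Real.mul_rpow (by norm_num) hm0.le
      _ ≤ 9 * m ^ e := by
          apply mul_le_mul_of_nonneg_right _ (Real.rpow_nonneg hm0.le _)
          calc (3 : ℝ) ^ e ≤ 3 ^ (2 : ℝ) :=
                Real.rpow_le_rpow_of_exponent_le (by norm_num) he2.le
            _ = 9 := by norm_num
  have e3 : m ^ e / m ^ 2 = m ^ (-(2 - e) : ℝ) := by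
    rw [show (-(2 - e) : ℝ) = e - 2 by ring, Real.rpow_sub hm0, Real.rpow_two]
  have e4 : 1 / m ^ 2 ≤ m⁻¹ := by
    rw [inv_eq_one_div]
    apply one_div_le_one_div_of_le hm0
    nlinarith
  calc 16 * (K * (1 + 2 * m) ^ e + c) * (r / m) ^ 2 + 1 / m
      ≤ 16 * (K * (9 * m ^ e) + c) * (r / m) ^ 2 + 1 / m := by
        have h5 := mul_le_mul_of_nonneg_left e1 hK
        have h6 : 16 * (K * (1 + 2 * m) ^ e + c) ≤
            16 * (K * (9 * m ^ e) + c) := by linarith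
        have h7 := mul_le_mul_of_nonneg_right h6 (sq_nonneg (r / m))
        linarith
    _ = 144 * K * r ^ 2 * (m ^ e / m ^ 2) + 16 * c * r ^ 2 * (1 / m ^ 2) + m⁻¹ := by
        field_simp
        ring
    _ ≤ 144 * K * r ^ 2 * m ^ (-(2 - e) : ℝ) + 16 * c * r ^ 2 * m⁻¹ + m⁻¹ := by
        rw [e3]
        have h7 : 16 * c * r ^ 2 * (1 / m ^ 2) ≤ 16 * c * r ^ 2 * m⁻¹ :=
          mul_le_mul_of_nonneg_left e4 (by positivity)
        linarith

/-- the approximation for functions symmetric with respect to the real axis -/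
theorem hadE_real {e : ℝ} (he : 0 ≤ e) (he2 : e < 2) {f : ℂ → ℂ} (hf : Differentiable ℂ f) (h0 : f 0 ≠ 0)
    (hsym : ∀ x, f ((starRingEnd ℂ) x) = (starRingEnd ℂ) (f x)) {K : ℝ} (hK : 0 ≤ K)
    (hb : ∀ w, ‖f w‖ ≤ Real.exp (K * (1 + ‖w‖) ^ e)) :
    ∃ Q : ℕ → ℂ[X], (∀ N w, (Q N).IsRoot w → f w = 0 ∨ w.im = 0) ∧
      TendstoLocallyUniformly (fun (N : ℕ) (w : ℂ) => (Q N).eval w) f atTop := by
  choose Q L h1 h2 using hadE_main he hf h0 hsym hK hb
  refine ⟨Q, h1, ?_⟩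
  rw [Metric.tendstoLocallyUniformly_iff]
  intro ε hε x
  set r : ℝ := ‖x‖ + 1 with hr
  have hr0 : 0 < r := by positivity
  set B : ℝ := Real.exp (K * (1 + r) ^ e) with hB
  have hB0 : 0 < B := Real.exp_pos _
  refine ⟨ball 0 r, ?_, ?_⟩
  · apply isOpen_ball.mem_nhds
    simp [hr]
  have hδ : 0 < min 1 (ε / (2 * B)) := by positivity
  filter_upwards [limE he he2 hK hr0 (abs_nonneg (Real.log ‖f 0‖)) hδ] with N hN
  intro y hy
  have hyr : ‖y‖ < r := by simpa using hy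
  obtain ⟨hN1, hN2⟩ := hN
  obtain ⟨h3, h4⟩ := h2 N y (hyr.trans hN1)
  have hN0 : 0 < (N : ℝ) + 1 := by positivity
  have h5 : (‖y‖ / ((N : ℝ) + 1)) ^ 2 ≤ (r / ((N : ℝ) + 1)) ^ 2 :=
    pow_le_pow_left₀ (by positivity) (div_le_div_of_nonneg_right hyr.le hN0.le) 2
  have h6 : 0 ≤ 16 * (K * (1 + 2 * ((N : ℝ) + 1)) ^ e + |Real.log ‖f 0‖|) := by positivity
  have h7 : ‖L N y‖ < min 1 (ε / (2 * B)) := by
    refine lt_of_le_of_lt (h4.trans ?_) hN2
    have := mul_le_mul_of_nonneg_left h5 h6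
    linarith
  have h8 : ‖L N y‖ < 1 := h7.trans_le (min_le_left _ _)
  have h9 : ‖L N y‖ < ε / (2 * B) := h7.trans_le (min_le_right _ _)
  have h10 : (Q N).eval y = f y * cexp (-(L N y)) := by
    rw [h3, mul_assoc, ← Complex.exp_add]
    simp
  rw [dist_eq_norm, h10]
  have h11 : f y - f y * cexp (-(L N y)) = -(f y * (cexp (-(L N y)) - 1)) := by ring
  rw [h11, norm_neg, norm_mul]
  have h12 : ‖cexp (-(L N y)) - 1‖ ≤ 2 * ‖-(L N y)‖ :=
    Complex.norm_exp_sub_one_le (by rw [norm_neg]; exact h8.le)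
  rw [norm_neg] at h12
  have h13 : ‖f y‖ ≤ B := by
    refine (hb y).trans (Real.exp_le_exp.2 (mul_le_mul_of_nonneg_left ?_ hK))
    exact Real.rpow_le_rpow (by positivity) (by linarith) he
  calc ‖f y‖ * ‖cexp (-(L N y)) - 1‖ ≤ B * (2 * ‖L N y‖) :=
        mul_le_mul h13 h12 (norm_nonneg _) hB0.le
    _ < B * (2 * (ε / (2 * B))) := by
        apply mul_lt_mul_of_pos_left _ hB0
        linarith
    _ = ε := by field_simp

theorem one_le_pwE {e : ℝ} (he : 0 ≤ e) (z : ℂ) : 1 ≤ (1 + ‖z‖) ^ e :=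
  Real.one_le_rpow (by linarith [norm_nonneg z]) he

theorem grE_shift {e : ℝ} (he : 0 ≤ e) {f : ℂ → ℂ} (hf : GrE e f) (β : ℂ) : GrE e (fun z => f (z + β)) := by
  obtain ⟨C, hC, h⟩ := hf
  refine ⟨C * (1 + ‖β‖) ^ e, by positivity, fun z => (h _).trans ?_⟩
  apply Real.exp_le_exp.2
  rw [mul_assoc]
  refine mul_le_mul_of_nonneg_left ?_ hC
  rw [← Real.mul_rpow (by positivity) (by positivity)]
  apply Real.rpow_le_rpow (by positivity) _ he
  have h1 := norm_add_le z β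
  nlinarith [norm_nonneg z, norm_nonneg β]

theorem grE_div {e : ℝ} (he : 0 ≤ e) {F G : ℂ → ℂ} {P : ℝ[X]} (hP : P ≠ 0) (hF : GrE e F) (hG : Continuous G)
    (hFG : ∀ w, F w = aeval w P * G w) : GrE e G := by
  obtain ⟨C, hC, h⟩ := hF
  obtain ⟨R, c, hc, hR⟩ := Pool.Agent.N186.GN.poly_low hP
  obtain ⟨B, hB⟩ := (isCompact_closedBall (0 : ℂ) R).exists_bound_of_continuousOn hG.continuousOn
  refine ⟨C + |Real.log c| + |B|, by positivity, fun w => ?_⟩
  have h1 := one_le_pwE he w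
  set p : ℝ := (1 + ‖w‖) ^ e with hp
  rcases le_total R ‖w‖ with hw | hw
  · have h2 := hR w hw
    have h3 : ‖G w‖ ≤ Real.exp (C * p) / c := by
      rw [le_div_iff₀ hc]
      calc ‖G w‖ * c ≤ ‖G w‖ * ‖aeval w P‖ := mul_le_mul_of_nonneg_left h2 (norm_nonneg _)
        _ = ‖F w‖ := by rw [hFG, norm_mul, mul_comm]
        _ ≤ _ := h w
    refine h3.trans ?_
    have h4 : Real.exp (C * p) / c = Real.exp (C * p - Real.log c) := by
      rw [Real.exp_sub, Real.exp_log hc]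
    rw [h4]
    apply Real.exp_le_exp.2
    have h5 := neg_abs_le (Real.log c)
    have h6 := abs_nonneg (Real.log c)
    have h7 := abs_nonneg B
    nlinarith
  · have h2 : ‖G w‖ ≤ B := hB w (by simpa using hw)
    have h3 : B ≤ |B| := le_abs_self B
    have h4 := Real.add_one_le_exp ((C + |Real.log c| + |B|) * p)
    have h6 := abs_nonneg (Real.log c)
    have h7 := abs_nonneg B
    nlinarith

theorem h1E {e : ℝ} (he : 0 ≤ e) (he2 : e < 2) {f : ℂ → ℂ} (hf : Differentiable ℂ f) (hsym : Sym f)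
    (hgro : GrE e f) (hfin : (NRZ f).Finite) :
    ∃ (P : ℝ[X]) (g : ℂ → ℂ), P ≠ 0 ∧ RR g ∧ Sym g ∧ (∀ w, f w = aeval w P * g w) := by
  obtain ⟨β, hβ⟩ := Pool.Agent.N186.GN.real_point hf (Pool.Agent.N186.GN.nrz_not_zero hfin)
  obtain ⟨B, hB⟩ : ∃ B : ℝ, ∀ z ∈ NRZ f, ‖z‖ ≤ B := by
    obtain ⟨B, hB⟩ := (hfin.image (fun z => ‖z‖)).bddAbove
    exact ⟨B, fun z hz => hB ⟨z, hz, rfl⟩⟩
  set R : ℝ := |B| + |β| + 1 with hR
  have hR0 : 0 < R := by positivity
  set F : ℂ → ℂ := fun z => f (z + β) with hFdef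
  have hFd : Differentiable ℂ F := hf.comp (by fun_prop)
  have hF0 : F 0 ≠ 0 := by simpa [hFdef] using hβ
  have hFs : ∀ x, F ((starRingEnd ℂ) x) = (starRingEnd ℂ) (F x) := by
    intro x
    simp only [hFdef]
    rw [← hsym, map_add, Complex.conj_ofReal]
  have hFg : GrE e F := grE_shift he hgro β
  obtain ⟨C, hC, hCb⟩ := id hFg
  obtain ⟨n, hn⟩ := exists_nat_ge
    (∑ᶠ u, (MeromorphicOn.divisor F (closedBall 0 R) u : ℝ) * 1)
  obtain ⟨P, G, hG, hG0, hGb, hFG, hnz⟩ := had_split (M := C * (1 + 2 * R) ^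
    e) hR0 n F hFd hF0 hFs (fun w hw => by
      refine (hCb w).trans (Real.exp_le_exp.2 (mul_le_mul_of_nonneg_left ?_ hC))
      have hw' : ‖w‖ ≤ 2 * R := by simpa using hw
      exact Real.rpow_le_rpow (by positivity) (by linarith) he) hn
  have hP0 : P ≠ 0 := by
    rintro rfl
    have := hFG 0
    rw [map_zero, zero_mul] at this
    exact hF0 this
  have hGs : ∀ x, G ((starRingEnd ℂ) x) = (starRingEnd ℂ) (G x) :=
    had_symm (q := fun w => aeval w P) hG.continuous hFG hFs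
      (fun x => Polynomial.aeval_conj P x) (Pool.Agent.N186.GN.poly_dense hP0)
  have hGg : GrE e G := grE_div he hP0 hFg hG.continuous hFG
  have hG0n : G 0 ≠ 0 := by rw [hG0]; exact hF0
  -- the zeros of `G` are real
  have hGr : ∀ w, G w = 0 → w.im = 0 := by
    intro w hw
    by_contra him
    have h1 : F w = 0 := by rw [hFG, hw, mul_zero]
    have h2 : w + β ∈ NRZ f := ⟨h1, by simpa using him⟩
    have h3 := hB _ h2
    apply hnz w _ hw
    rw [mem_closedBall_zero_iff]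
    have h4 : ‖w‖ ≤ ‖w + β‖ + |β| := by
      have := norm_sub_le (w + (β : ℂ)) (β : ℂ)
      rw [add_sub_cancel_right] at this
      simpa using this
    have h5 := le_abs_self B
    rw [hR]
    linarith
  obtain ⟨K, hK, hKb⟩ := id hGg
  obtain ⟨Q, hQ1, hQ2⟩ := hadE_real he he2 hG hG0n hGs hK hKb
  refine ⟨P.comp (Polynomial.X - Polynomial.C β), fun w => G (w - β), ?_, ?_, ?_, ?_⟩
  · intro h
    apply hP0
    have h1 : (P.comp (Polynomial.X - Polynomial.C β)).comp (Polynomial.X + Polynomial.C β) = P := by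
      rw [Polynomial.comp_assoc]
      simp
    rw [← h1, h, Polynomial.zero_comp]
  · refine ⟨hG.comp (by fun_prop), ⟨β, by simpa using hG0n⟩,
      fun N => (Q N).comp (Polynomial.X - Polynomial.C (β : ℂ)), ?_, ?_⟩
    · intro N w hw
      rw [Polynomial.IsRoot.def, Polynomial.eval_comp] at hw
      simp only [Polynomial.eval_sub, Polynomial.eval_X, Polynomial.eval_C] at hw
      rcases hQ1 N (w - β) hw with h | h
      · simpa using hGr _ h
      · simpa using h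
    · have h1 : TendstoLocallyUniformly (fun (N : ℕ) (w : ℂ) => (Q N).eval (w - β))
          (fun w => G (w - β)) atTop :=
        hQ2.comp (fun w : ℂ => w - β) (by fun_prop)
      refine h1.congr ?_
      intro N w
      simp [Polynomial.eval_comp]
  · intro z
    rw [← hGs, map_sub, Complex.conj_ofReal]
  · intro w
    have h1 := hFG (w - β)
    simp only [hFdef, sub_add_cancel] at h1
    rw [h1, Polynomial.aeval_comp]
    simp

/-- Task C1. -/
theorem c1 : S_C1 := by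
  intro f hf hsym hgr hfin
  obtain ⟨C, e, hC, he, he2, hb⟩ := hgr
  obtain ⟨P, g, hP, hg, hgs, hfg⟩ := h1E he he2 hf hsym ⟨C, hC, hb⟩ hfin
  refine ⟨P.natDegree, ?_⟩
  have h := Pool.Agent.N400.GN.h2 P g hP hg hgs
  have : f = fun z => aeval z P * g z := funext hfg
  rw [this]
  exact h

end Pool.Agent.N702.GN
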